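import Mathlib

set_option autoImplicit false

namespace Pool.Agent.Results.MP_cd9307_al.FinBasis

universe u

/-- terms of type `(+, ·)` over countably many variables -/
inductive Term
  | var (n : ℕ)
  | add (p q : Term)
  | mul (p q : Term)

/-- value of a term under an assignment -/
def Term.eval {B : Type u} [Add B] [Mul B] (ρ : ℕ → B) : Term → B
  | .var n => ρ n
  | .add p q => p.eval ρ + q.eval ρ
  | .mul p q => p.eval ρ * q.eval ρ

/-- the identity `e.1 ≈ e.2` holds in `B` -/
def Holds (B : Type u) [Add B] [Mul B] (e : Term × Term) : Prop :=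
  ∀ ρ : ℕ → B, e.1.eval ρ = e.2.eval ρ

/-- the variety generated by `S` is defined by a finite set of identities -/
def FinBased (S : Type u) [Add S] [Mul S] : Prop :=
  ∃ E : Set (Term × Term), E.Finite ∧ ∀ (B : Type) [Add B] [Mul B],
    (∀ e ∈ E, Holds B e) ↔ (∀ e, Holds S e → Holds B e)

/-- `S` with a new element `none` absorbing for both operations -/
def Ext (S : Type u) : Type u := Option S

instance {S : Type u} [Add S] : Add (Ext S) := ⟨fun x y => Option.map₂ (· + ·) x y⟩
instance {S : Type u} [Mul S] : Mul (Ext S) := ⟨fun x y => Option.map₂ (· * ·) x y⟩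

def Term.vars : Term → Finset ℕ
  | .var n => {n}
  | .add p q => p.vars ∪ q.vars
  | .mul p q => p.vars ∪ q.vars

def Term.sub (f : ℕ → Term) : Term → Term
  | .var n => f n
  | .add p q => .add (p.sub f) (q.sub f)
  | .mul p q => .mul (p.sub f) (q.sub f)

theorem eval_sub {B : Type u} [Add B] [Mul B] (ρ : ℕ → B) (f : ℕ → Term) (t : Term) :
    (t.sub f).eval ρ = t.eval (fun k => (f k).eval ρ) := by
  induction t with
  | var n => rfl
  | add p q hp hq => simp [Term.sub, Term.eval, hp, hq]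
  | mul p q hp hq => simp [Term.sub, Term.eval, hp, hq]

theorem mem_vars_sub (f : ℕ → Term) (t : Term) (k : ℕ) :
    k ∈ (t.sub f).vars ↔ ∃ j ∈ t.vars, k ∈ (f j).vars := by
  induction t with
  | var n => simp [Term.sub, Term.vars]
  | add p q hp hq => simp [Term.sub, Term.vars, hp, hq, or_and_right, exists_or]
  | mul p q hp hq => simp [Term.sub, Term.vars, hp, hq, or_and_right, exists_or]

theorem eval_congr {B : Type u} [Add B] [Mul B] (ρ ρ' : ℕ → B) (t : Term)
    (h : ∀ k ∈ t.vars, ρ k = ρ' k) : t.eval ρ = t.eval ρ' := by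
  induction t with
  | var n => exact h n (by simp [Term.vars])
  | add p q hp hq =>
    simp only [Term.eval]
    rw [hp fun k hk => h k (by simp [Term.vars, hk]), hq fun k hk => h k (by simp [Term.vars, hk])]
  | mul p q hp hq =>
    simp only [Term.eval]
    rw [hp fun k hk => h k (by simp [Term.vars, hk]), hq fun k hk => h k (by simp [Term.vars, hk])]

theorem vars_nonempty (t : Term) : t.vars.Nonempty := by
  induction t with
  | var n => simp [Term.vars]
  | add p q hp _ => exact hp.mono Finset.subset_union_left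
  | mul p q hp _ => exact hp.mono Finset.subset_union_left

section ext
variable {S : Type u} [Add S] [Mul S]

theorem ext_some (ρ : ℕ → S) (t : Term) :
    t.eval (B := Ext S) (fun k => some (ρ k)) = some (t.eval ρ) := by
  induction t with
  | var n => rfl
  | add p q hp hq => simp only [Term.eval]; rw [hp, hq]; rfl
  | mul p q hp hq => simp only [Term.eval]; rw [hp, hq]; rfl

theorem ext_none (ρ : ℕ → Ext S) (t : Term) (k : ℕ) (hk : k ∈ t.vars) (h : ρ k = none) :
    t.eval ρ = none := by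
  induction t with
  | var n =>
    simp only [Term.vars, Finset.mem_singleton] at hk
    subst hk; exact h
  | add p q hp hq =>
    simp only [Term.eval]
    rcases Finset.mem_union.mp hk with h' | h'
    · rw [hp h']; rfl
    · rw [hq h']; exact Option.map₂_none_right _ _
  | mul p q hp hq =>
    simp only [Term.eval]
    rcases Finset.mem_union.mp hk with h' | h'
    · rw [hp h']; rfl
    · rw [hq h']; exact Option.map₂_none_right _ _

theorem ext_of [Nonempty S] (e : Term × Term) (h1 : Holds S e) (h2 : e.1.vars = e.2.vars) :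
    Holds (Ext S) e := by
  intro ρ
  by_cases h : ∃ k ∈ e.1.vars, ρ k = none
  · obtain ⟨k, hk, h⟩ := h
    rw [ext_none ρ _ k hk h, ext_none ρ _ k (h2 ▸ hk) h]
  · push Not at h
    obtain ⟨s⟩ := ‹Nonempty S›
    have h3 : ∀ k ∈ e.1.vars, ρ k = some (Option.getD (ρ k) s) := by
      intro k hk
      have := h k hk
      cases hρ : ρ k with
      | none => exact absurd hρ this
      | some x => rfl
    rw [eval_congr ρ _ e.1 h3, eval_congr ρ _ e.2 (h2 ▸ h3), ext_some, ext_some, h1]

theorem of_ext [Nonempty S] (e : Term × Term) (h : Holds (Ext S) e) :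
    Holds S e ∧ e.1.vars = e.2.vars := by
  classical
  obtain ⟨s⟩ := ‹Nonempty S›
  have key : ∀ p q : Term, (∀ ρ : ℕ → Ext S, p.eval ρ = q.eval ρ) → p.vars ⊆ q.vars := by
    intro p q hpq k hk
    by_contra hq
    have h1 := hpq (fun j => if j = k then none else some s)
    rw [ext_none _ p k hk (by simp), eval_congr (B := Ext S) _ (fun _ => some s) q (fun j hj =>
      if_neg (by rintro rfl; exact hq hj)), ext_some (fun _ => s)] at h1
    cases h1
  refine ⟨fun ρ => ?_, Finset.Subset.antisymm (key _ _ h) (key _ _ fun ρ => (h ρ).symm)⟩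
  have := h (fun k => some (ρ k))
  rw [ext_some, ext_some] at this
  exact Option.some.inj this

end ext

inductive Der (E : Set (Term × Term)) : Term → Term → Prop
  | ax (e : Term × Term) (f : ℕ → Term) : e ∈ E → Der E (e.1.sub f) (e.2.sub f)
  | refl (p : Term) : Der E p p
  | symm {p q : Term} : Der E p q → Der E q p
  | trans {p q r : Term} : Der E p q → Der E q r → Der E p r
  | add {p q p' q' : Term} : Der E p p' → Der E q q' → Der E (.add p q) (.add p' q')
  | mul {p q p' q' : Term} : Der E p p' → Der E q q' → Der E (.mul p q) (.mul p' q')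

def dS (E : Set (Term × Term)) : Setoid Term := ⟨Der E, Der.refl, Der.symm, Der.trans⟩

def Fr (E : Set (Term × Term)) : Type := Quotient (dS E)

instance (E : Set (Term × Term)) : Add (Fr E) :=
  ⟨Quotient.map₂ Term.add fun _ _ h _ _ h' => Der.add h h'⟩
instance (E : Set (Term × Term)) : Mul (Fr E) :=
  ⟨Quotient.map₂ Term.mul fun _ _ h _ _ h' => Der.mul h h'⟩

theorem fr_eval (E : Set (Term × Term)) (f : ℕ → Term) (t : Term) :
    t.eval (B := Fr E) (fun k => Quotient.mk (dS E) (f k)) = Quotient.mk (dS E) (t.sub f) := by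
  induction t with
  | var n => rfl
  | add p q hp hq => simp only [Term.eval]; rw [hp, hq]; rfl
  | mul p q hp hq => simp only [Term.eval]; rw [hp, hq]; rfl

theorem sub_var (t : Term) : t.sub Term.var = t := by
  induction t with
  | var n => rfl
  | add p q hp hq => simp [Term.sub, hp, hq]
  | mul p q hp hq => simp [Term.sub, hp, hq]

theorem complete (E : Set (Term × Term)) (e : Term × Term)
    (h : (∀ e ∈ E, Holds (Fr E) e) → Holds (Fr E) e) : Der E e.1 e.2 := by
  have h1 : ∀ e ∈ E, Holds (Fr E) e := by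
    intro e he ρ
    have : ρ = fun k => Quotient.mk (dS E) (ρ k).out := by funext k; exact (Quotient.out_eq _).symm
    rw [this, fr_eval, fr_eval]
    exact Quotient.sound (Der.ax e _ he)
  have := h h1 (fun k => Quotient.mk (dS E) (Term.var k))
  rw [fr_eval, fr_eval, sub_var, sub_var] at this
  exact Quotient.exact this

section ctx
variable {B : Type u}

def ml [Mul B] : Option B → B → B
  | none, t => t
  | some a, t => a * t
def mr [Mul B] : Option B → B → B
  | none, t => t
  | some b, t => t * b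
def ad [Add B] : Option B → B → B
  | none, t => t
  | some g, t => t + g
def mid [Mul B] (a b : Option B) (t : B) : B := ml a (mr b t)
def ctx [Add B] [Mul B] (a b g : Option B) (t : B) : B := ad g (mid a b t)

def mlT (f : Bool) (i : ℕ) (t : Term) : Term := if f then .mul (.var i) t else t
def mrT (f : Bool) (i : ℕ) (t : Term) : Term := if f then .mul t (.var i) else t
def adT (f : Bool) (i : ℕ) (t : Term) : Term := if f then .add t (.var i) else t
def opt (f : Bool) (x : B) : Option B := if f then some x else none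

theorem opt_getD (o : Option B) (x : B) : opt o.isSome (o.getD x) = o := by cases o <;> rfl

theorem eval_mlT [Add B] [Mul B] (ρ : ℕ → B) (f : Bool) (i : ℕ) (t : Term) :
    (mlT f i t).eval ρ = ml (opt f (ρ i)) (t.eval ρ) := by cases f <;> rfl
theorem eval_mrT [Add B] [Mul B] (ρ : ℕ → B) (f : Bool) (i : ℕ) (t : Term) :
    (mrT f i t).eval ρ = mr (opt f (ρ i)) (t.eval ρ) := by cases f <;> rfl
theorem eval_adT [Add B] [Mul B] (ρ : ℕ → B) (f : Bool) (i : ℕ) (t : Term) :
    (adT f i t).eval ρ = ad (opt f (ρ i)) (t.eval ρ) := by cases f <;> rfl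
theorem vars_mlT (f : Bool) (i : ℕ) (t : Term) (k : ℕ) :
    k ∈ (mlT f i t).vars ↔ (f = true ∧ k = i) ∨ k ∈ t.vars := by cases f <;> simp [mlT, Term.vars]
theorem vars_mrT (f : Bool) (i : ℕ) (t : Term) (k : ℕ) :
    k ∈ (mrT f i t).vars ↔ (f = true ∧ k = i) ∨ k ∈ t.vars := by
  cases f <;> simp [mrT, Term.vars, or_comm]
theorem vars_adT (f : Bool) (i : ℕ) (t : Term) (k : ℕ) :
    k ∈ (adT f i t).vars ↔ (f = true ∧ k = i) ∨ k ∈ t.vars := by
  cases f <;> simp [adT, Term.vars, or_comm]

variable [AddCommSemigroup B] [Semigroup B] [LeftDistribClass B] [RightDistribClass B]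

theorem mid_add (a b : Option B) (t w : B) : mid a b (t + w) = mid a b t + mid a b w := by
  cases a <;> cases b <;> simp [mid, ml, mr, mul_add, add_mul]

theorem ad_add (g : Option B) (t w : B) : ad g t + w = ad g (t + w) := by
  cases g <;> simp [ad, add_right_comm]

theorem ctx_add (a b g : Option B) (t w : B) :
    ctx a b g (t + w) = ctx a b (some (ctx a b g w)) t := by
  cases g <;> simp [ctx, mid_add, ad, add_assoc]

theorem ctx_mul_right (a b g : Option B) (t w : B) :
    ctx a b g (t * w) = ctx a (some (mr b w)) g t := by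
  cases b <;> simp [ctx, mid, mr, mul_assoc]

theorem ctx_mul_left (a b g : Option B) (t w : B) :
    ctx a b g (w * t) = ctx (some (ml a w)) b g t := by
  cases a <;> cases b <;> simp [ctx, mid, mr, ml, mul_assoc]

def Sub (s T : B) : Prop := ∃ a b g, T = ctx a b g s

theorem Sub.refl (s : B) : Sub s s := ⟨none, none, none, rfl⟩

theorem Sub.trans {s t T : B} (h : Sub s t) (h' : Sub t T) : Sub s T := by
  obtain ⟨a, b, g, rfl⟩ := h
  obtain ⟨a', b', g', rfl⟩ := h'
  have h1 : ∀ (g : Option B) (x : B) (a' b' g' : Option B),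
      ∃ a'' b'' g'', ctx a' b' g' (ad g x) = ctx a'' b'' g'' x := by
    intro g x a' b' g'
    cases g with
    | none => exact ⟨_, _, _, rfl⟩
    | some g => exact ⟨_, _, _, ctx_add _ _ _ _ _⟩
  have h2 : ∀ (g : Option B) (x : B) (a' b' g' : Option B),
      ∃ a'' b'' g'', ctx a' b' g' (ml g x) = ctx a'' b'' g'' x := by
    intro g x a' b' g'
    cases g with
    | none => exact ⟨_, _, _, rfl⟩
    | some g => exact ⟨_, _, _, ctx_mul_left _ _ _ _ _⟩
  have h3 : ∀ (g : Option B) (x : B) (a' b' g' : Option B),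
      ∃ a'' b'' g'', ctx a' b' g' (mr g x) = ctx a'' b'' g'' x := by
    intro g x a' b' g'
    cases g with
    | none => exact ⟨_, _, _, rfl⟩
    | some g => exact ⟨_, _, _, ctx_mul_right _ _ _ _ _⟩
  obtain ⟨a1, b1, g1, e1⟩ := h1 g (mid a b s) a' b' g'
  obtain ⟨a2, b2, g2, e2⟩ := h2 a (mr b s) a1 b1 g1
  obtain ⟨a3, b3, g3, e3⟩ := h3 b s a2 b2 g2
  exact ⟨a3, b3, g3, e1.trans (e2.trans e3)⟩

theorem sub_add_left (s w : B) : Sub s (s + w) := ⟨none, none, some w, rfl⟩
theorem sub_add_right (s w : B) : Sub s (w + s) := by rw [add_comm]; exact sub_add_left s w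
theorem sub_mul_left (s w : B) : Sub s (s * w) := ⟨none, some w, none, rfl⟩
theorem sub_mul_right (s w : B) : Sub s (w * s) := ⟨some w, none, none, rfl⟩

theorem sub_eval (ρ : ℕ → B) (t : Term) (k : ℕ) (hk : k ∈ t.vars) : Sub (ρ k) (t.eval ρ) := by
  induction t with
  | var n =>
    simp only [Term.vars, Finset.mem_singleton] at hk
    subst hk; exact Sub.refl _
  | add p q hp hq =>
    rcases Finset.mem_union.mp hk with h' | h'
    · exact (hp h').trans (sub_add_left _ _)
    · exact (hq h').trans (sub_add_right _ _)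
  | mul p q hp hq =>
    rcases Finset.mem_union.mp hk with h' | h'
    · exact (hp h').trans (sub_mul_left _ _)
    · exact (hq h').trans (sub_mul_right _ _)

theorem expand (ρ : ℕ → B) (y : ℕ) (w : B) (t : Term) (hy : y ∈ t.vars) :
    ∃ T, t.eval (fun k => if k = y then ρ k + w else ρ k) = t.eval ρ + T ∧ Sub w T := by
  have hn : ∀ t : Term, y ∉ t.vars →
      t.eval (fun k => if k = y then ρ k + w else ρ k) = t.eval ρ := fun t ht =>
    eval_congr _ _ t fun k hk => if_neg (by rintro rfl; exact ht hk)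
  induction t with
  | var n =>
    simp only [Term.vars, Finset.mem_singleton] at hy
    subst hy
    exact ⟨w, by simp [Term.eval], Sub.refl _⟩
  | add p q hp hq =>
    simp only [Term.eval]
    by_cases h1 : y ∈ p.vars
    · obtain ⟨T1, e1, s1⟩ := hp h1
      by_cases h2 : y ∈ q.vars
      · obtain ⟨T2, e2, s2⟩ := hq h2
        exact ⟨T1 + T2, by rw [e1, e2, add_add_add_comm], s1.trans (sub_add_left _ _)⟩
      · exact ⟨T1, by rw [e1, hn q h2, add_right_comm], s1⟩
    · obtain ⟨T2, e2, s2⟩ := hq ((Finset.mem_union.mp hy).resolve_left h1)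
      exact ⟨T2, by rw [e2, hn p h1, add_assoc], s2⟩
  | mul p q hp hq =>
    simp only [Term.eval]
    by_cases h1 : y ∈ p.vars
    · obtain ⟨T1, e1, s1⟩ := hp h1
      by_cases h2 : y ∈ q.vars
      · obtain ⟨T2, e2, s2⟩ := hq h2
        exact ⟨T1 * (q.eval ρ + T2) + p.eval ρ * T2,
          by rw [e1, e2, add_mul, mul_add, add_assoc, add_comm (p.eval ρ * T2)],
          (s1.trans (sub_mul_left _ _)).trans (sub_add_left _ _)⟩
      · exact ⟨T1 * q.eval ρ, by rw [e1, hn q h2, add_mul], s1.trans (sub_mul_left _ _)⟩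
    · obtain ⟨T2, e2, s2⟩ := hq ((Finset.mem_union.mp hy).resolve_left h1)
      exact ⟨p.eval ρ * T2, by rw [e2, hn p h1, mul_add], s2.trans (sub_mul_right _ _)⟩

inductive Good (T : B) : B → Prop
  | base {s : B} : Sub s T → Good T s
  | add {s t : B} : Good T s → Good T t → Good T (s + t)
  | mul {s t : B} : Good T s → Good T t → Good T (s * t)

def Abs (u : B) : Prop := ∀ a b g, ∃ T, ctx a b g u + T = ctx a b g u ∧ Sub (ctx a b g u) T

def R (ρ : ℕ → B) (u v : B) : Prop :=
  u = v ∨ (Abs u ∧ Abs v ∧ ∀ a b T, (∀ k, Sub (ρ k) T) → mid a b u + T = mid a b v + T)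

theorem R.symm {ρ : ℕ → B} {u v : B} (h : R ρ u v) : R ρ v u :=
  h.elim (fun h => Or.inl h.symm) fun h => Or.inr ⟨h.2.1, h.1, fun a b T hT => (h.2.2 a b T hT).symm⟩

theorem R.trans {ρ : ℕ → B} {u v w : B} (h : R ρ u v) (h' : R ρ v w) : R ρ u w := by
  rcases h with rfl | h
  · exact h'
  rcases h' with rfl | h'
  · exact Or.inr h
  exact Or.inr ⟨h.1, h'.2.1, fun a b T hT => (h.2.2 a b T hT).trans (h'.2.2 a b T hT)⟩

theorem R.add_right {ρ : ℕ → B} {u v : B} (h : R ρ u v) (w : B) : R ρ (u + w) (v + w) := by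
  rcases h with rfl | h
  · exact Or.inl rfl
  refine Or.inr ⟨fun a b g => ?_, fun a b g => ?_, fun a b T hT => ?_⟩
  · rw [ctx_add]; exact h.1 _ _ _
  · rw [ctx_add]; exact h.2.1 _ _ _
  · rw [mid_add, mid_add, add_right_comm, h.2.2 a b T hT, add_right_comm]

theorem R.mul_right {ρ : ℕ → B} {u v : B} (h : R ρ u v) (w : B) : R ρ (u * w) (v * w) := by
  rcases h with rfl | h
  · exact Or.inl rfl
  refine Or.inr ⟨fun a b g => ?_, fun a b g => ?_, fun a b T hT => ?_⟩
  · rw [ctx_mul_right]; exact h.1 _ _ _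
  · rw [ctx_mul_right]; exact h.2.1 _ _ _
  · have e1 : mid a b (u * w) = mid a (some (mr b w)) u := ctx_mul_right a b none u w
    have e2 : mid a b (v * w) = mid a (some (mr b w)) v := ctx_mul_right a b none v w
    rw [e1, e2, h.2.2 _ _ T hT]

theorem R.mul_left {ρ : ℕ → B} {u v : B} (h : R ρ u v) (w : B) : R ρ (w * u) (w * v) := by
  rcases h with rfl | h
  · exact Or.inl rfl
  refine Or.inr ⟨fun a b g => ?_, fun a b g => ?_, fun a b T hT => ?_⟩
  · rw [ctx_mul_left]; exact h.1 _ _ _
  · rw [ctx_mul_left]; exact h.2.1 _ _ _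
  · have e1 : mid a b (w * u) = mid (some (ml a w)) b u := ctx_mul_left a b none u w
    have e2 : mid a b (w * v) = mid (some (ml a w)) b v := ctx_mul_left a b none v w
    rw [e1, e2, h.2.2 _ _ T hT]

end ctx

def midT (fa fb : Bool) (t : Term) : Term := mlT fa 0 (mrT fb 1 t)
def ctxT (fa fb fg : Bool) (t : Term) : Term := adT fg 4 (midT fa fb t)
def sh (t : Term) : Term := t.sub fun k => .var (k + 7)
def bump (y : ℕ) (z t : Term) : Term :=
  t.sub fun k => if k = y then .add (.var (k + 7)) z else .var (k + 7)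
def fill (V : Finset ℕ) (z t : Term) : Term :=
  t.sub fun k => if k ∈ V then .var (k + 7) else z

def A1 (l : Term) (y : ℕ) (fa fb fc fd : Bool) : Term × Term :=
  (.add (midT fa fb (bump y (.var 5) l)) (mlT fc 2 (mrT fd 3 (.var 5))),
    .add (midT fa fb (sh l)) (mlT fc 2 (mrT fd 3 (.var 5))))
def A2 (l : Term) (y : ℕ) : Term × Term :=
  (bump y (.mul (.var 5) (.var 6)) l, bump y (.add (.var 5) (.var 6)) l)
def B1 (l : Term) (y : ℕ) (fa fb fg : Bool) : Term × Term :=
  (ctxT fa fb fg (sh l), ctxT fa fb fg (bump y (ctxT fa fb fg (sh l)) l))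
def B2 (l r : Term) (fa fb fg : Bool) : Term × Term :=
  (ctxT fa fb fg (sh r), ctxT fa fb fg (fill r.vars (ctxT fa fb fg (sh r)) l))
def C1 (l r : Term) (fa fb : Bool) : Term × Term :=
  (.add (midT fa fb (fill (l.vars ∩ r.vars) (.var 5) l)) (.var 5),
    .add (midT fa fb (fill (l.vars ∩ r.vars) (.var 5) r)) (.var 5))

def schemes (l r : Term) : Set (Term × Term) :=
  {(l, r)} ∪ ⋃ y ∈ (l.vars : Set ℕ), ⋃ f : Bool × Bool × Bool × Bool,
    {A1 l y f.1 f.2.1 f.2.2.1 f.2.2.2, A2 l y, B1 l y f.1 f.2.1 f.2.2.1, B2 l r f.1 f.2.1 f.2.2.1,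
      C1 l r f.1 f.2.1}

theorem schemes_finite (l r : Term) : (schemes l r).Finite :=
  (Set.finite_singleton _).union (Set.Finite.biUnion (Finset.finite_toSet _) fun _ _ =>
    Set.finite_iUnion fun _ => Set.toFinite _)

theorem mem_schemes (l r : Term) (y : ℕ) (hy : y ∈ l.vars) (fa fb fc fd : Bool) (e : Term × Term)
    (h : e = A1 l y fa fb fc fd ∨ e = A2 l y ∨ e = B1 l y fa fb fc ∨ e = B2 l r fa fb fc ∨
      e = C1 l r fa fb) : e ∈ schemes l r := by
  refine Or.inr ?_
  simp only [Set.mem_iUnion]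
  exact ⟨y, hy, (fa, fb, fc, fd), h⟩

def asg {B : Type u} (x0 x1 x2 x3 x4 x5 x6 : B) (σ : ℕ → B) : ℕ → B
  | 0 => x0
  | 1 => x1
  | 2 => x2
  | 3 => x3
  | 4 => x4
  | 5 => x5
  | 6 => x6
  | k + 7 => σ k

section ev
variable {B : Type u} [Add B] [Mul B]

theorem eval_midT (ρ : ℕ → B) (fa fb : Bool) (t : Term) :
    (midT fa fb t).eval ρ = mid (opt fa (ρ 0)) (opt fb (ρ 1)) (t.eval ρ) := by
  rw [midT, eval_mlT, eval_mrT, mid]

theorem eval_ctxT (ρ : ℕ → B) (fa fb fg : Bool) (t : Term) :
    (ctxT fa fb fg t).eval ρ = ctx (opt fa (ρ 0)) (opt fb (ρ 1)) (opt fg (ρ 4)) (t.eval ρ) := by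
  rw [ctxT, eval_adT, eval_midT, ctx]

theorem eval_sh (ρ : ℕ → B) (t : Term) : (sh t).eval ρ = t.eval fun k => ρ (k + 7) := by
  rw [sh, eval_sub]; rfl

theorem eval_bump (ρ : ℕ → B) (y : ℕ) (z t : Term) :
    (bump y z t).eval ρ = t.eval fun k => if k = y then ρ (k + 7) + z.eval ρ else ρ (k + 7) := by
  rw [bump, eval_sub]
  congr 1
  funext k
  split_ifs <;> rfl

theorem eval_fill (ρ : ℕ → B) (V : Finset ℕ) (z t : Term) :
    (fill V z t).eval ρ = t.eval fun k => if k ∈ V then ρ (k + 7) else z.eval ρ := by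
  rw [fill, eval_sub]
  congr 1
  funext k
  split_ifs <;> rfl

theorem dummy {l r : Term} (h : Holds B (l, r)) (ρ ρ' : ℕ → B) (hr : ∀ k ∈ r.vars, ρ k = ρ' k) :
    l.eval ρ = l.eval ρ' := (h ρ).trans ((eval_congr ρ ρ' r hr).trans (h ρ').symm)

end ev

theorem vars_sh (t : Term) (k : ℕ) : k ∈ (sh t).vars ↔ ∃ j ∈ t.vars, k = j + 7 := by
  simp [sh, mem_vars_sub, Term.vars]

theorem vars_bump (y : ℕ) (z t : Term) (hy : y ∈ t.vars) (k : ℕ) :
    k ∈ (bump y z t).vars ↔ k ∈ (sh t).vars ∨ k ∈ z.vars := by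
  rw [bump, mem_vars_sub, vars_sh]
  constructor
  · rintro ⟨j, hj, h⟩
    split_ifs at h with h'
    · rcases Finset.mem_union.mp h with h | h
      · exact Or.inl ⟨j, hj, by simpa [Term.vars] using h⟩
      · exact Or.inr h
    · exact Or.inl ⟨j, hj, by simpa [Term.vars] using h⟩
  · rintro (⟨j, hj, rfl⟩ | h)
    · refine ⟨j, hj, ?_⟩
      split_ifs <;> simp [Term.vars]
    · exact ⟨y, hy, by simp [Term.vars, h]⟩

theorem vars_fill (V : Finset ℕ) (z t : Term) (k : ℕ) :
    k ∈ (fill V z t).vars ↔ (∃ j ∈ t.vars, j ∈ V ∧ k = j + 7) ∨ ((∃ j ∈ t.vars, j ∉ V) ∧ k ∈ z.vars) := by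
  rw [fill, mem_vars_sub]
  constructor
  · rintro ⟨j, hj, h⟩
    split_ifs at h with h'
    · exact Or.inl ⟨j, hj, h', by simpa [Term.vars] using h⟩
    · exact Or.inr ⟨⟨j, hj, h'⟩, h⟩
  · rintro (⟨j, hj, h', rfl⟩ | ⟨⟨j, hj, h'⟩, h⟩)
    · exact ⟨j, hj, by simp [h', Term.vars]⟩
    · exact ⟨j, hj, by simp [h', h]⟩

section valid
variable {S : Type u} [Add S] [Mul S] [Nonempty S] {l r : Term}

theorem valid_A1 (h : Holds S (l, r)) {y : ℕ} (hy : y ∈ l.vars) (hy' : y ∉ r.vars)
    (fa fb fc fd : Bool) : Holds (Ext S) (A1 l y fa fb fc fd) := by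
  refine ext_of _ (fun ρ => ?_) ?_
  · simp only [A1, Term.eval, eval_midT, eval_bump, eval_sh]
    rw [dummy h _ (fun k => ρ (k + 7)) fun k hk => if_neg (by rintro rfl; exact hy' hk)]
  · ext k
    simp only [A1, Term.vars, Finset.mem_union, midT, vars_mlT, vars_mrT, vars_bump _ _ _ hy]
    tauto

theorem valid_A2 (h : Holds S (l, r)) {y : ℕ} (hy : y ∈ l.vars) (hy' : y ∉ r.vars) :
    Holds (Ext S) (A2 l y) := by
  refine ext_of _ (fun ρ => ?_) ?_
  · simp only [A2, eval_bump]
    exact dummy h _ _ fun k hk => by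
      rw [if_neg (by rintro rfl; exact hy' hk), if_neg (by rintro rfl; exact hy' hk)]
  · ext k
    simp only [A2, Term.vars, vars_bump _ _ _ hy]

theorem valid_B1 (h : Holds S (l, r)) {y : ℕ} (hy : y ∈ l.vars) (hy' : y ∉ r.vars)
    (fa fb fg : Bool) : Holds (Ext S) (B1 l y fa fb fg) := by
  refine ext_of _ (fun ρ => ?_) ?_
  · simp only [B1, eval_ctxT, eval_bump, eval_sh]
    congr 1
    exact dummy h _ _ fun k hk => (if_neg (by rintro rfl; exact hy' hk)).symm
  · ext k
    simp only [B1, ctxT, midT, vars_mlT, vars_mrT, vars_adT, vars_bump _ _ _ hy]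
    tauto

theorem valid_B2 (h : Holds S (l, r)) {y : ℕ} (hy : y ∈ l.vars) (hy' : y ∉ r.vars)
    (fa fb fg : Bool) : Holds (Ext S) (B2 l r fa fb fg) := by
  refine ext_of _ (fun ρ => ?_) ?_
  · simp only [B2, eval_ctxT, eval_fill, eval_sh]
    congr 1
    exact (h _).symm.trans (dummy h _ _ fun k hk => (if_pos hk).symm)
  · ext k
    have h1 : ∃ j ∈ l.vars, j ∉ r.vars := ⟨y, hy, hy'⟩
    have h2 : (∃ j ∈ l.vars, j ∈ r.vars ∧ k = j + 7) → k ∈ (sh r).vars := by
      rintro ⟨j, -, h3, h4⟩
      exact (vars_sh _ _).mpr ⟨j, h3, h4⟩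
    simp only [B2, ctxT, midT, vars_mlT, vars_mrT, vars_adT, vars_fill]
    generalize (∃ j ∈ l.vars, j ∈ r.vars ∧ k = j + 7) = P at h2 ⊢
    generalize (∃ j ∈ l.vars, j ∉ r.vars) = Q at h1 ⊢
    generalize (fg = true ∧ k = 4) = P1
    generalize (fa = true ∧ k = 0) = P2
    generalize (fb = true ∧ k = 1) = P3
    tauto

theorem valid_C1 (h : Holds S (l, r)) (fa fb : Bool) : Holds (Ext S) (C1 l r fa fb) := by
  refine ext_of _ (fun ρ => ?_) ?_
  · simp only [C1, Term.eval, eval_midT, eval_fill]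
    exact congrArg (fun x => mid _ _ x + ρ 5) (h _)
  · ext k
    have h2 : (∃ j ∈ l.vars, j ∈ l.vars ∩ r.vars ∧ k = j + 7) ↔
        (∃ j ∈ r.vars, j ∈ l.vars ∩ r.vars ∧ k = j + 7) :=
      ⟨fun ⟨j, _, h3, h4⟩ => ⟨j, (Finset.mem_inter.mp h3).2, h3, h4⟩,
        fun ⟨j, _, h3, h4⟩ => ⟨j, (Finset.mem_inter.mp h3).1, h3, h4⟩⟩
    simp only [C1, Term.vars, Finset.mem_union, midT, vars_mlT, vars_mrT, vars_fill, h2]
    by_cases h5 : k ∈ ({5} : Finset ℕ) <;> simp [h5]

end valid

section main
variable {S : Type u} [Add S] [Mul S] [Nonempty S]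
variable {B : Type} [AddCommSemigroup B] [Semigroup B] [LeftDistribClass B] [RightDistribClass B]
variable {l r : Term}

theorem abs_l (h : Holds S (l, r)) (hB : ∀ e ∈ schemes l r, Holds (Ext S) e → Holds B e)
    {y : ℕ} (hy : y ∈ l.vars) (hy' : y ∉ r.vars) (σ : ℕ → B) : Abs (l.eval σ) := by
  intro a b g
  have x := σ 0
  have := hB _ (mem_schemes l r y hy a.isSome b.isSome g.isSome true _ (by tauto))
    (valid_B1 h hy hy' a.isSome b.isSome g.isSome)
    (asg (a.getD x) (b.getD x) x x (g.getD x) x x σ)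
  simp only [B1, eval_ctxT, eval_bump, eval_sh, asg, opt_getD] at this
  obtain ⟨T, e, hT⟩ := expand σ y (ctx a b g (l.eval σ)) l hy
  rw [e] at this
  refine ⟨mid a b T, ?_, hT.trans ⟨a, b, none, rfl⟩⟩
  refine Eq.trans ?_ this.symm
  rw [ctx, ctx, ad_add, mid_add]

theorem abs_r (h : Holds S (l, r)) (hB : ∀ e ∈ schemes l r, Holds (Ext S) e → Holds B e)
    {y : ℕ} (hy : y ∈ l.vars) (hy' : y ∉ r.vars) (σ : ℕ → B) : Abs (r.eval σ) := by
  intro a b g
  have x := σ 0
  have := hB _ (mem_schemes l r y hy a.isSome b.isSome g.isSome true _ (by tauto))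
    (valid_B2 h hy hy' a.isSome b.isSome g.isSome)
    (asg (a.getD x) (b.getD x) x x (g.getD x) x x σ)
  simp only [B2, eval_ctxT, eval_fill, eval_sh, asg, opt_getD] at this
  rw [this]
  exact abs_l h hB hy hy' _ a b g

theorem lemA (h : Holds S (l, r)) (hB : ∀ e ∈ schemes l r, Holds (Ext S) e → Holds B e)
    {y : ℕ} (hy : y ∈ l.vars) (hy' : y ∉ r.vars) (a b : Option B) (T s : B) (hs : Good T s) :
    ∀ σ : ℕ → B, mid a b (l.eval fun k => if k = y then σ k + s else σ k) + T
      = mid a b (l.eval σ) + T := by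
  have hadd : ∀ s t : B, (∀ σ : ℕ → B, mid a b (l.eval fun k => if k = y then σ k + s else σ k) + T
      = mid a b (l.eval σ) + T) → (∀ σ : ℕ → B,
      mid a b (l.eval fun k => if k = y then σ k + t else σ k) + T = mid a b (l.eval σ) + T) →
      ∀ σ : ℕ → B, mid a b (l.eval fun k => if k = y then σ k + (s + t) else σ k) + T
      = mid a b (l.eval σ) + T := by
    intro s t h1 h2 σ
    rw [← h1 σ, ← h2 (fun k => if k = y then σ k + s else σ k)]
    congr 3
    funext k
    split_ifs
    · rw [add_assoc]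
    · rfl
  induction hs with
  | @base s hs =>
    intro σ
    obtain ⟨c, d, g, rfl⟩ := hs
    have := hB _ (mem_schemes l r y hy a.isSome b.isSome c.isSome d.isSome _ (by tauto))
      (valid_A1 h hy hy' a.isSome b.isSome c.isSome d.isSome)
      (asg (a.getD s) (b.getD s) (c.getD s) (d.getD s) s s s σ)
    simp only [A1, Term.eval, eval_midT, eval_mlT, eval_mrT, eval_bump, eval_sh, asg,
      opt_getD] at this
    rw [ctx, add_comm, add_comm (mid a b _), ad_add, ad_add, add_comm, add_comm (mid c d s)]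
    exact congrArg (ad g) this
  | add _ _ h1 h2 => exact hadd _ _ h1 h2
  | @mul s t _ _ h1 h2 =>
    intro σ
    have := hB _ (mem_schemes l r y hy true true true true _ (by tauto)) (valid_A2 h hy hy')
      (asg s s s s s s t σ)
    simp only [A2, Term.eval, eval_bump, asg] at this
    rw [this]
    exact hadd _ _ h1 h2 σ

theorem lemF (h : Holds S (l, r)) (hB : ∀ e ∈ schemes l r, Holds (Ext S) e → Holds B e)
    (a b : Option B) (T : B) (σ : ℕ → B) (hσ : ∀ k, Good T (σ k)) :
    mid a b (l.eval fun k => if k ∈ l.vars ∩ r.vars then σ k else T) + T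
      = mid a b (l.eval σ) + T := by
  have key : ∀ Y : Finset ℕ, Y ⊆ l.vars \ r.vars →
      mid a b (l.eval fun k => if k ∈ Y then T else σ k) + T = mid a b (l.eval σ) + T := by
    intro Y
    induction Y using Finset.induction_on with
    | empty => simp
    | insert y Y hyY ih =>
      intro hY
      obtain ⟨hy, hy'⟩ := Finset.mem_sdiff.mp (hY (Finset.mem_insert_self _ _))
      rw [← ih ((Finset.subset_insert _ _).trans hY),
        ← lemA h hB hy hy' a b T (σ y) (hσ y) (fun k => if k ∈ insert y Y then T else σ k),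
        ← lemA h hB hy hy' a b T T (Good.base (Sub.refl T)) (fun k => if k ∈ Y then T else σ k)]
      congr 3
      funext k
      by_cases hk : k = y
      · subst hk
        simp [hyY, add_comm]
      · simp [hk]
  rw [← key _ (Finset.Subset.refl _)]
  congr 2
  refine eval_congr _ _ _ fun k hk => ?_
  by_cases h' : k ∈ r.vars <;> simp [hk, h']

theorem step (h : Holds S (l, r)) (hB : ∀ e ∈ schemes l r, Holds (Ext S) e → Holds B e)
    (hB' : ∀ e ∈ schemes r l, Holds (Ext S) e → Holds B e) (ρ : ℕ → B) (f : ℕ → Term) :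
    R ρ ((l.sub f).eval ρ) ((r.sub f).eval ρ) := by
  rw [eval_sub, eval_sub]
  have h' : Holds S (r, l) := fun σ => (h σ).symm
  by_cases hreg : l.vars = r.vars
  · exact Or.inl (hB (l, r) (Or.inl rfl) (ext_of _ h hreg) _)
  right
  have h3 : ∀ a b T, (∀ k, Sub (ρ k) T) → mid a b (l.eval fun k => (f k).eval ρ) + T
      = mid a b (r.eval fun k => (f k).eval ρ) + T := by
    intro a b T hT
    have hg : ∀ t : Term, Good T (t.eval ρ) := by
      intro t
      induction t with
      | var n => exact Good.base (hT n)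
      | add p q hp hq => exact hp.add hq
      | mul p q hp hq => exact hp.mul hq
    rw [← lemF h hB a b T _ fun k => hg _, ← lemF h' hB' a b T _ fun k => hg _, Finset.inter_comm r.vars]
    obtain ⟨y, hy⟩ := vars_nonempty l
    have := hB _ (mem_schemes l r y hy a.isSome b.isSome true true _ (by tauto))
      (valid_C1 h a.isSome b.isSome)
      (asg (a.getD T) (b.getD T) T T T T T fun k => (f k).eval ρ)
    simpa only [C1, Term.eval, eval_midT, eval_fill, asg, opt_getD] using this
  by_cases h4 : l.vars ⊆ r.vars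
  · obtain ⟨y, hy, hy'⟩ := Finset.not_subset.mp fun h5 => hreg (Finset.Subset.antisymm h4 h5)
    exact ⟨abs_r h' hB' hy hy' _, abs_l h' hB' hy hy' _, h3⟩
  · obtain ⟨y, hy, hy'⟩ := Finset.not_subset.mp h4
    exact ⟨abs_l h hB hy hy' _, abs_r h hB hy hy' _, h3⟩

theorem main (E : Set (Term × Term)) (hE : ∀ e ∈ E, Holds S e)
    (hB : ∀ e ∈ E, (∀ e' ∈ schemes e.1 e.2, Holds (Ext S) e' → Holds B e') ∧
      ∀ e' ∈ schemes e.2 e.1, Holds (Ext S) e' → Holds B e')
    (p q : Term) (hd : Der E p q) (hv : p.vars = q.vars) : Holds B (p, q) := by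
  have h1 : ∀ (ρ : ℕ → B) (p q : Term), Der E p q → R ρ (p.eval ρ) (q.eval ρ) := by
    intro ρ p q hd
    induction hd with
    | ax e f he => exact step (hE e he) (hB e he).1 (hB e he).2 ρ f
    | refl p => exact Or.inl rfl
    | symm _ ih => exact ih.symm
    | trans _ _ h1 h2 => exact h1.trans h2
    | @add p q p' q' _ _ h1 h2 =>
      refine (h1.add_right _).trans ?_
      simp only [Term.eval]
      rw [add_comm (p'.eval ρ), add_comm (p'.eval ρ)]
      exact h2.add_right _
    | mul _ _ h1 h2 => exact (h1.mul_right _).trans (h2.mul_left _)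
  intro ρ0
  obtain ⟨x, hx⟩ := vars_nonempty p
  let ρ : ℕ → B := fun k => if k ∈ p.vars then ρ0 k else ρ0 x
  have e1 : p.eval ρ0 = p.eval ρ := eval_congr _ _ _ fun k hk => (if_pos hk).symm
  have e2 : q.eval ρ0 = q.eval ρ := eval_congr _ _ _ fun k hk => (if_pos (hv ▸ hk)).symm
  have hfull : ∀ t : Term, t.vars = p.vars → ∀ k, Sub (ρ k) (t.eval ρ) := by
    intro t ht k
    by_cases hk : k ∈ p.vars
    · exact sub_eval ρ t k (ht ▸ hk)
    · have : ρ k = ρ x := by simp only [ρ, if_neg hk, if_pos hx]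
      rw [this]
      exact sub_eval ρ t x (ht ▸ hx)
  show p.eval ρ0 = q.eval ρ0
  rw [e1, e2]
  rcases h1 ρ p q hd with h | ⟨h2, h3, h4⟩
  · exact h
  obtain ⟨T, t1, t2⟩ := h2 none none none
  obtain ⟨U, u1, u2⟩ := h3 none none none
  have t3 := h4 none none T fun k => (hfull p rfl k).trans t2
  have u3 := h4 none none U fun k => (hfull q hv.symm k).trans u2
  simp only [ctx, mid, ml, mr, ad] at t1 u1 t3 u3
  calc p.eval ρ = q.eval ρ + T := by rw [← t3, t1]
    _ = q.eval ρ + U + T := by rw [u1]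
    _ = p.eval ρ + T + U := by rw [add_right_comm, t3]
    _ = q.eval ρ := by rw [t1, u3, u1]

end main

def axs : Set (Term × Term) :=
  {(.add (.add (.var 0) (.var 1)) (.var 2), .add (.var 0) (.add (.var 1) (.var 2))),
   (.add (.var 0) (.var 1), .add (.var 1) (.var 0)),
   (.mul (.mul (.var 0) (.var 1)) (.var 2), .mul (.var 0) (.mul (.var 1) (.var 2))),
   (.mul (.var 0) (.add (.var 1) (.var 2)), .add (.mul (.var 0) (.var 1)) (.mul (.var 0) (.var 2))),
   (.mul (.add (.var 0) (.var 1)) (.var 2), .add (.mul (.var 0) (.var 2)) (.mul (.var 1) (.var 2)))}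

theorem result (S : Type u) [AddCommSemigroup S] [Semigroup S] [LeftDistribClass S]
    [RightDistribClass S] [Nonempty S] (h : FinBased S) : FinBased (Ext S) := by
  obtain ⟨E, hE, h⟩ := h
  have hES : ∀ e ∈ E, Holds S e := by
    intro e he
    have h1 := (h (Fr {e' | Holds S e'})).mpr
    have h2 : Der {e' | Holds S e'} e.1 e.2 :=
      complete _ e fun h3 => h1 (fun e' he' => h3 e' he') e he
    have h3 : ∀ p q, Der {e' | Holds S e'} p q → ∀ ρ : ℕ → S, p.eval ρ = q.eval ρ := by
      intro p q hd ρ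
      induction hd with
      | ax e f he => rw [eval_sub, eval_sub]; exact he _
      | refl p => rfl
      | symm _ ih => exact ih.symm
      | trans _ _ h1 h2 => exact h1.trans h2
      | add _ _ h1 h2 => simp only [Term.eval, h1, h2]
      | mul _ _ h1 h2 => simp only [Term.eval, h1, h2]
    exact h3 _ _ h2
  refine ⟨{e | e ∈ axs ∪ ⋃ e' ∈ E, (schemes e'.1 e'.2 ∪ schemes e'.2 e'.1) ∧ Holds (Ext S) e}, ?_,
    fun B _ _ => ⟨fun hB e he => ?_, fun hB e he => hB e he.2⟩⟩
  · exact ((by unfold axs; exact Set.toFinite _ : axs.Finite).union (hE.biUnion fun _ _ =>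
      (schemes_finite _ _).union (schemes_finite _ _))).subset fun e he => he.1
  have hax : ∀ e ∈ axs, Holds B e := by
    intro e he
    refine hB e ⟨Or.inl he, ext_of e ?_ ?_⟩
    · simp only [axs, Set.mem_insert_iff, Set.mem_singleton_iff] at he
      rcases he with rfl | rfl | rfl | rfl | rfl <;> intro ρ <;> simp only [Term.eval]
      · exact add_assoc _ _ _
      · exact add_comm _ _
      · exact mul_assoc _ _ _
      · exact mul_add _ _ _
      · exact add_mul _ _ _
    · simp only [axs, Set.mem_insert_iff, Set.mem_singleton_iff] at he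
      rcases he with rfl | rfl | rfl | rfl | rfl <;> decide
  let _ : AddCommSemigroup B :=
    { add_assoc := fun a b c => hax _ (Or.inl rfl) (asg a b c c c c c fun _ => c)
      add_comm := fun a b => hax _ (Or.inr (Or.inl rfl)) (asg a b b b b b b fun _ => b) }
  let _ : Semigroup B :=
    { mul_assoc := fun a b c => hax _ (Or.inr (Or.inr (Or.inl rfl))) (asg a b c c c c c fun _ => c) }
  have _ : LeftDistribClass B :=
    ⟨fun a b c => hax _ (Or.inr (Or.inr (Or.inr (Or.inl rfl)))) (asg a b c c c c c fun _ => c)⟩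
  have _ : RightDistribClass B :=
    ⟨fun a b c => hax _ (Or.inr (Or.inr (Or.inr (Or.inr rfl)))) (asg a b c c c c c fun _ => c)⟩
  obtain ⟨he1, he2⟩ := of_ext e he
  refine main (S := S) E hES (fun e' he' => ⟨fun x hx hx' => hB x ⟨Or.inr ?_, hx'⟩,
    fun x hx hx' => hB x ⟨Or.inr ?_, hx'⟩⟩) e.1 e.2
    (complete E e fun h3 => (h (Fr E)).mp h3 e he1) he2
  · exact Set.mem_biUnion he' (Or.inl hx)
  · exact Set.mem_biUnion he' (Or.inr hx)

end Pool.Agent.Results.MP_cd9307_al.FinBasis
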